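import Pool.Agent.Q210.GL.NMN

/-!
# Project GL (helper269), job GL-BON: a law is determined effectively by its moments

Proof by helper210.
-/

set_option autoImplicit false

open Finset Filter Topology

namespace Pool.Agent.Q210.GL

open Pool.Agent.Q269.GL (S_BON ij IsLw)

/-- `0 + 1 + … + (i - 1)` -/
def ex (i : ℕ) : ℕ := ∑ l ∈ range i, l

theorem ex_succ (i : ℕ) : ex (i + 1) = ex i + i := by
  unfold ex
  rw [Finset.sum_range_succ]

theorem ex_two (i : ℕ) : 2 * ex i + i = i ^ 2 := by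
  induction i with
  | zero => simp [ex]
  | succ i ih => rw [ex_succ]; nlinarith

section
variable {q : ℝ} (hq : 1 < q)
include hq

/-- the Gaussian binomial -/
noncomputable def gb (q : ℝ) (N i : ℕ) : ℝ := ij q i (q ^ N) / ij q i (q ^ i)

omit hq in
theorem ij_zero (x : ℝ) : ij q 0 x = 1 := by simp [ij]

omit hq in
theorem ij_succ (i : ℕ) (x : ℝ) : ij q (i + 1) x = ij q i x * (x - q ^ i) := by
  unfold ij
  rw [Finset.prod_range_succ]

omit hq in
theorem ij_add (t i N : ℕ) :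
    ij q (t + i) (q ^ (t + N)) = ij q t (q ^ (t + N)) * (q ^ (t * i) * ij q i (q ^ N)) := by
  induction i with
  | zero => simp [ij_zero]
  | succ i ih =>
    rw [← Nat.add_assoc, ij_succ, ih, ij_succ]
    have e1 : q ^ (t + N) - q ^ (t + i) = q ^ t * (q ^ N - q ^ i) := by
      rw [pow_add, pow_add]
      ring
    have e2 : q ^ (t * (i + 1)) = q ^ (t * i) * q ^ t := by
      rw [← pow_add]
      congr 1
    rw [e1, e2]
    ring

omit hq in
theorem ij_one_add (i N : ℕ) :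
    ij q (i + 1) (q ^ (N + 1)) = (q ^ (N + 1) - 1) * (q ^ i * ij q i (q ^ N)) := by
  have h := ij_add (q := q) 1 i N
  rw [Nat.add_comm 1 i, Nat.add_comm 1 N, Nat.one_mul] at h
  rw [h]
  congr 1
  rw [ij_succ, ij_zero, pow_zero, one_mul]

theorem ij_pos {i j : ℕ} (h : i ≤ j) : 0 < ij q i (q ^ j) := by
  unfold ij
  refine Finset.prod_pos fun l hl => ?_
  rw [Finset.mem_range] at hl
  have := pow_lt_pow_right₀ hq (by omega : l < j)
  linarith

omit hq in
theorem ij_eq_zero {i j : ℕ} (h : j < i) : ij q i (q ^ j) = 0 := by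
  unfold ij
  exact Finset.prod_eq_zero (Finset.mem_range.2 h) (sub_self _)

theorem ij_nonneg (i j : ℕ) : 0 ≤ ij q i (q ^ j) := by
  rcases le_or_gt i j with h | h
  · exact (ij_pos hq h).le
  · rw [ij_eq_zero h]

theorem gb_nonneg (N i : ℕ) : 0 ≤ gb q N i :=
  div_nonneg (ij_nonneg hq i N) (ij_pos hq le_rfl).le

omit hq in
theorem gb_zero_right (N : ℕ) : gb q N 0 = 1 := by
  unfold gb
  rw [ij_zero, ij_zero, div_one]

omit hq in
theorem gb_lt {N i : ℕ} (h : N < i) : gb q N i = 0 := by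
  unfold gb
  rw [ij_eq_zero h, zero_div]

theorem gb_self (N : ℕ) : gb q N N = 1 := div_self (ij_pos hq le_rfl).ne'

/-- the rule of Pascal -/
theorem gb_pascal (N i : ℕ) : gb q (N + 1) (i + 1) = gb q N i + q ^ (i + 1) * gb q N (i + 1) := by
  unfold gb
  rw [ij_one_add, ij_one_add i i, ij_succ i (q ^ N)]
  have hg : 0 < ij q i (q ^ i) := ij_pos hq le_rfl
  have h1 : 0 < q ^ (i + 1) - 1 := by
    have := one_lt_pow₀ hq (by omega : i + 1 ≠ 0)
    linarith
  have h2 : 0 < q ^ i := by positivity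
  have e1 : q ^ (i + 1) = q ^ i * q := pow_succ q i
  have e2 : q ^ (N + 1) = q ^ N * q := pow_succ q N
  rw [e1] at h1 ⊢
  rw [e2]
  generalize ij q i (q ^ i) = G at *
  generalize ij q i (q ^ N) = W at *
  generalize q ^ i = u at *
  generalize q ^ N = v at *
  have n1 : u * q - 1 ≠ 0 := h1.ne'
  have n2 : u ≠ 0 := h2.ne'
  have n3 : G ≠ 0 := hg.ne'
  have n4 : q * u - 1 ≠ 0 := by rwa [mul_comm]
  have n5 : (u * q - 1) * (u * G) ≠ 0 := mul_ne_zero n1 (mul_ne_zero n2 n3)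
  rw [div_eq_iff n5]
  have e3 : W / G * ((u * q - 1) * (u * G)) = W * (u * q - 1) * u := by
    rw [div_mul_eq_mul_div, div_eq_iff n3]
    ring
  have e4 : u * q * (W * (v - u) / ((u * q - 1) * (u * G))) * ((u * q - 1) * (u * G)) =
      u * q * (W * (v - u)) := by
    rw [mul_assoc, div_mul_cancel₀ _ n5]
  rw [add_mul, e3, e4]
  ring

/-- the alternating sums -/
noncomputable def Am (q : ℝ) (m N : ℕ) : ℝ :=
  ∑ i ∈ range (m + 1), (-1) ^ i * q ^ ex i * gb q N i

theorem Am_succ (m N : ℕ) : Am q m (N + 1) = (-1) ^ m * q ^ ex (m + 1) * gb q N m := by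
  induction m with
  | zero => simp [Am, ex, gb_zero_right]
  | succ m ih =>
    have e1 : Am q (m + 1) (N + 1) = Am q m (N + 1) +
        (-1) ^ (m + 1) * q ^ ex (m + 1) * gb q (N + 1) (m + 1) := by
      unfold Am
      rw [Finset.sum_range_succ]
    rw [e1, ih, gb_pascal hq, ex_succ (m + 1), pow_add q]
    ring

omit hq in
theorem Am_zero (m : ℕ) : Am q m 0 = 1 := by
  unfold Am
  rw [Finset.sum_eq_single 0]
  · simp [ex, gb_zero_right]
  · intro i _ hi
    rw [gb_lt (by omega : 0 < i), mul_zero]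
  · intro h
    exact absurd (Finset.mem_range.2 (by omega)) h

theorem gb_mul (t i N : ℕ) : gb q (t + N) (t + i) * gb q (t + i) t = gb q (t + N) t * gb q N i := by
  unfold gb
  rw [ij_add, ij_add t i i]
  have h1 : 0 < ij q t (q ^ (t + i)) := ij_pos hq (by omega)
  have h2 : 0 < q ^ (t * i) := by positivity
  have h3 : 0 < ij q i (q ^ i) := ij_pos hq le_rfl
  have h4 : 0 < ij q t (q ^ t) := ij_pos hq le_rfl
  field_simp

/-- the truncated sums -/
noncomputable def Sm (q : ℝ) (t m j : ℕ) : ℝ :=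
  ∑ i ∈ range (m + 1), (-1) ^ i * q ^ ex i * gb q (t + i) t * gb q j (t + i)

omit hq in
theorem Sm_lt {t m j : ℕ} (h : j < t) : Sm q t m j = 0 := by
  unfold Sm
  refine Finset.sum_eq_zero fun i _ => ?_
  rw [gb_lt (by omega : j < t + i), mul_zero]

theorem Sm_ge (t m N : ℕ) : Sm q t m (t + N) = gb q (t + N) t * Am q m N := by
  unfold Sm Am
  rw [Finset.mul_sum]
  refine Finset.sum_congr rfl fun i _ => ?_
  have := gb_mul hq t i N
  linear_combination (-1) ^ i * q ^ ex i * this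

theorem Sm_even {m : ℕ} (hm : Even m) (t j : ℕ) : (if j = t then (1 : ℝ) else 0) ≤ Sm q t m j := by
  rcases lt_or_ge j t with h | h
  · rw [Sm_lt h, if_neg (by omega)]
  · obtain ⟨N, rfl⟩ := Nat.exists_eq_add_of_le h
    rw [Sm_ge hq]
    rcases Nat.eq_zero_or_pos N with h1 | h1
    · subst h1
      rw [Nat.add_zero, if_pos rfl, gb_self hq, Am_zero, one_mul]
    · obtain ⟨M, rfl⟩ : ∃ M, N = M + 1 := ⟨N - 1, by omega⟩
      rw [if_neg (by omega), Am_succ hq, hm.neg_one_pow, one_mul]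
      have := gb_nonneg hq (t + (M + 1)) t
      have := gb_nonneg hq M m
      positivity

theorem Sm_odd {m : ℕ} (hm : Odd m) (t j : ℕ) : Sm q t m j ≤ if j = t then (1 : ℝ) else 0 := by
  rcases lt_or_ge j t with h | h
  · rw [Sm_lt h, if_neg (by omega)]
  · obtain ⟨N, rfl⟩ := Nat.exists_eq_add_of_le h
    rw [Sm_ge hq]
    rcases Nat.eq_zero_or_pos N with h1 | h1
    · subst h1
      rw [Nat.add_zero, if_pos rfl, gb_self hq, Am_zero, one_mul]
    · obtain ⟨M, rfl⟩ : ∃ M, N = M + 1 := ⟨N - 1, by omega⟩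
      rw [if_neg (by omega), Am_succ hq, hm.neg_one_pow]
      have h2 := gb_nonneg hq (t + (M + 1)) t
      have h3 := gb_nonneg hq M m
      have h4 : 0 ≤ gb q (t + (M + 1)) t * (q ^ ex (m + 1) * gb q M m) := by positivity
      nlinarith

/-- the coefficients -/
noncomputable def ac (q : ℝ) (t i : ℕ) : ℝ :=
  (-1) ^ i * q ^ ex i * gb q (t + i) t / ij q (t + i) (q ^ (t + i))

omit hq in
theorem Sm_ac (t m j : ℕ) : Sm q t m j = ∑ i ∈ range (m + 1), ac q t i * ij q (t + i) (q ^ j) := by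
  unfold Sm
  refine Finset.sum_congr rfl fun i _ => ?_
  unfold ac
  have h : gb q j (t + i) = ij q (t + i) (q ^ j) / ij q (t + i) (q ^ (t + i)) := rfl
  rw [h]
  ring

/-- the growth of `ij q s (q ^ s)` -/
theorem g_eq (s : ℕ) : ij q s (q ^ s) = q ^ (s ^ 2) * Px (q⁻¹) s := by
  have hq0 : 0 < q := by linarith
  induction s with
  | zero => simp [ij_zero, Px]
  | succ s ih =>
    rw [ij_one_add, ih, Px_succ]
    have e1 : q ^ ((s + 1) ^ 2) = q ^ (s + 1) * (q ^ s * q ^ (s ^ 2)) := by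
      rw [← pow_add, ← pow_add]
      congr 1
      ring
    have e2 : q ^ (s + 1) * (1 - q⁻¹ ^ (s + 1)) = q ^ (s + 1) - 1 := by
      rw [mul_sub, mul_one, ← mul_pow, mul_inv_cancel₀ hq0.ne', one_pow]
    rw [e1, ← e2]
    ring

theorem tail_sq (C : ℝ) (c : ℕ → ℝ) (hc : ∀ t, c t ^ 2 ≤ C * q ^ (t ^ 2)) (t : ℕ) :
    ∃ K : ℝ, 0 ≤ K ∧ ∀ m, (ac q t m * c (t + m)) ^ 2 ≤ K * q⁻¹ ^ m := by
  have hq0 : 0 < q := by linarith
  have hx0 : 0 ≤ q⁻¹ := by positivity
  have hx1 : q⁻¹ < 1 := inv_lt_one_of_one_lt₀ hq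
  set L : ℝ := ∏' i : ℕ, (1 - q⁻¹ ^ (i + 1)) with hL
  have hLp : 0 < L := L_pos hx0 hx1
  have hC0 : 0 ≤ C := by
    have h1 := hc 0
    have h2 : 0 ≤ c 0 ^ 2 := sq_nonneg _
    simpa using h2.trans h1
  have hg : 0 < ij q t (q ^ t) := ij_pos hq le_rfl
  refine ⟨C * q ^ (t ^ 2) / (ij q t (q ^ t) ^ 2 * L ^ 2), by positivity, fun m => ?_⟩
  set s : ℕ := t + m with hs
  have hgs : q ^ (s ^ 2) * L ≤ ij q s (q ^ s) := by
    rw [g_eq hq]
    exact mul_le_mul_of_nonneg_left (L_le hx0 hx1 s) (by positivity)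
  have hgs0 : 0 < ij q s (q ^ s) := ij_pos hq le_rfl
  have hnum : ij q t (q ^ s) ≤ q ^ (s * t) := by
    unfold ij
    have h1 : q ^ (s * t) = ∏ _i ∈ range t, q ^ s := by
      rw [Finset.prod_const, Finset.card_range, ← pow_mul]
    rw [h1]
    refine Finset.prod_le_prod (fun l hl => ?_) fun l _ => ?_
    · rw [Finset.mem_range] at hl
      have := pow_le_pow_right₀ hq.le (by omega : l ≤ s)
      linarith
    · have : 0 < q ^ l := by positivity
      linarith
  have hnum0 : 0 ≤ ij q t (q ^ s) := ij_nonneg hq t s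
  have e1 : (ac q t m * c s) ^ 2 = (q ^ (2 * ex m) * ij q t (q ^ s) ^ 2 * c s ^ 2) /
      (ij q t (q ^ t) ^ 2 * ij q s (q ^ s) ^ 2) := by
    unfold ac gb
    rw [← hs]
    have h1 : ((-1 : ℝ) ^ m) ^ 2 = 1 := by rw [← pow_mul, mul_comm, pow_mul]; norm_num
    have h2 : (q ^ ex m) ^ 2 = q ^ (2 * ex m) := by rw [← pow_mul, mul_comm]
    rw [mul_pow, div_pow, mul_pow, mul_pow, h1, h2, div_pow]
    field_simp
  rw [e1]
  have h2 : q ^ (2 * ex m) * ij q t (q ^ s) ^ 2 * c s ^ 2 ≤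
      q ^ (2 * ex m) * (q ^ (s * t)) ^ 2 * (C * q ^ (s ^ 2)) := by
    refine mul_le_mul (mul_le_mul_of_nonneg_left (pow_le_pow_left₀ hnum0 hnum 2) (by positivity))
      (hc s) (sq_nonneg _) (by positivity)
  have h3 : ij q t (q ^ t) ^ 2 * (q ^ (s ^ 2) * L) ^ 2 ≤
      ij q t (q ^ t) ^ 2 * ij q s (q ^ s) ^ 2 :=
    mul_le_mul_of_nonneg_left (pow_le_pow_left₀ (by positivity) hgs 2) (by positivity)
  refine (div_le_div₀ (by positivity) h2 (by positivity) h3).trans (le_of_eq ?_)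
  have e3 : q ^ (2 * ex m) * (q ^ (s * t)) ^ 2 * q ^ (s ^ 2) * q ^ m = (q ^ (s ^ 2)) ^ 2 * q ^ (t ^ 2) := by
    rw [← pow_mul, ← pow_mul, ← pow_add, ← pow_add, ← pow_add, ← pow_add]
    congr 1
    have := ex_two m
    rw [hs]
    nlinarith
  have hqm : 0 < q ^ m := by positivity
  have hqs : 0 < q ^ (s ^ 2) := by positivity
  rw [inv_pow, ← div_eq_mul_inv, div_div, div_eq_div_iff (by positivity) (by positivity)]
  linear_combination (C * ij q t (q ^ t) ^ 2 * L ^ 2) * e3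

end

theorem t_BON : S_BON := by
  classical
  intro q hq p c hp hcb t ε hε
  obtain ⟨C, hC⟩ := hcb
  obtain ⟨K, hK0, hK⟩ := tail_sq hq C c hC t
  have hx0 : 0 ≤ q⁻¹ := by positivity
  have hx1 : q⁻¹ < 1 := inv_lt_one_of_one_lt₀ hq
  -- a good truncation
  obtain ⟨m, hme, hm⟩ : ∃ m : ℕ, Even m ∧ |ac q t (m + 1) * c (t + (m + 1))| ≤ ε / 2 := by
    have h1 : Tendsto (fun m : ℕ => K * q⁻¹ ^ m) atTop (𝓝 0) := by
      have := (tendsto_pow_atTop_nhds_zero_of_lt_one hx0 hx1).const_mul K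
      rwa [mul_zero] at this
    have h2 : ∀ᶠ m : ℕ in atTop, K * q⁻¹ ^ m ≤ (ε / 2) ^ 2 :=
      h1.eventually_le_const (by positivity)
    obtain ⟨M, hM⟩ := eventually_atTop.1 h2
    refine ⟨2 * M, even_two_mul M, ?_⟩
    exact abs_le_of_sq_le_sq ((hK _).trans (hM _ (by omega))) (by positivity)
  set A : ℝ := ∑ i ∈ range (m + 1 + 1), |ac q t i| with hA
  have hA0 : 0 ≤ A := Finset.sum_nonneg fun _ _ => abs_nonneg _
  refine ⟨t + (m + 1), ε / (2 * (A + 1)), by positivity, fun Ω _ X hX => ?_⟩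
  set δ : ℝ := ε / (2 * (A + 1)) with hδ
  have hδ0 : 0 < δ := by positivity
  have hAδ : A * δ ≤ ε / 2 := by
    rw [hδ, mul_div_assoc', div_le_div_iff₀ (by positivity) (by norm_num)]
    nlinarith
  have hn0 : (0 : ℝ) ≤ Fintype.card Ω := Nat.cast_nonneg _
  -- the truncated means
  set σ : ℕ → ℝ := fun r => ∑ i ∈ range (r + 1), ac q t i * c (t + i) with hσ
  have hmean : ∀ r ≤ m + 1, |∑ ω, Sm q t r (X ω) - σ r * Fintype.card Ω| ≤
      ε / 2 * Fintype.card Ω := by
    intro r hr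
    have e1 : ∑ ω, Sm q t r (X ω) - σ r * Fintype.card Ω = ∑ i ∈ range (r + 1),
        ac q t i * (∑ ω, ij q (t + i) (q ^ X ω) - c (t + i) * Fintype.card Ω) := by
      simp only [Sm_ac]
      rw [Finset.sum_comm, hσ, Finset.sum_mul, ← Finset.sum_sub_distrib]
      refine Finset.sum_congr rfl fun i _ => ?_
      rw [mul_sub, Finset.mul_sum]
      ring
    rw [e1]
    refine (Finset.abs_sum_le_sum_abs _ _).trans ?_
    have h2 : ∀ i ∈ range (r + 1), |ac q t i * (∑ ω, ij q (t + i) (q ^ X ω) -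
        c (t + i) * Fintype.card Ω)| ≤ |ac q t i| * (δ * Fintype.card Ω) := by
      intro i hi
      rw [Finset.mem_range] at hi
      rw [abs_mul]
      exact mul_le_mul_of_nonneg_left (hX (t + i) (by omega)) (abs_nonneg _)
    refine (Finset.sum_le_sum h2).trans ?_
    rw [← Finset.sum_mul]
    have h3 : ∑ i ∈ range (r + 1), |ac q t i| ≤ A :=
      Finset.sum_le_sum_of_subset_of_nonneg (Finset.range_subset_range.2 (by omega))
        fun _ _ _ => abs_nonneg _
    have h4 : (∑ i ∈ range (r + 1), |ac q t i|) * (δ * Fintype.card Ω) ≤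
        A * (δ * Fintype.card Ω) := mul_le_mul_of_nonneg_right h3 (by positivity)
    refine h4.trans ?_
    rw [← mul_assoc]
    exact mul_le_mul_of_nonneg_right hAδ hn0
  have hsum : ∀ r, HasSum (fun j => p j * Sm q t r j) (σ r) := by
    intro r
    have h1 : HasSum (fun j => ∑ i ∈ range (r + 1), ac q t i * (p j * ij q (t + i) (q ^ j)))
        (∑ i ∈ range (r + 1), ac q t i * c (t + i)) :=
      hasSum_sum fun i _ => (hp.mom (t + i)).mul_left _
    refine h1.congr_fun ?_ |> fun h => h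
    intro j
    rw [Sm_ac, Finset.mul_sum]
    refine Finset.sum_congr rfl fun i _ => ?_
    ring
  have hpt : HasSum (fun j => p j * (if j = t then (1 : ℝ) else 0)) (p t) := by
    have h1 := hasSum_ite_eq t (p t)
    refine h1.congr_fun ?_ |> fun h => h
    intro j
    by_cases h : j = t
    · subst h; simp
    · simp [h]
  have hcard : (((univ.filter fun ω => X ω = t).card : ℕ) : ℝ) =
      ∑ ω, if X ω = t then (1 : ℝ) else 0 := by
    rw [Finset.sum_ite, Finset.sum_const_zero, add_zero, Finset.sum_const, nsmul_eq_mul, mul_one]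
  have u1 : p t ≤ σ m := hasSum_le (fun j => mul_le_mul_of_nonneg_left (Sm_even hq hme t j)
    (hp.nn j)) hpt (hsum m)
  have u2 : σ (m + 1) ≤ p t := hasSum_le (fun j => mul_le_mul_of_nonneg_left
    (Sm_odd hq hme.add_one t j) (hp.nn j)) (hsum (m + 1)) hpt
  have u3 : (((univ.filter fun ω => X ω = t).card : ℕ) : ℝ) ≤ ∑ ω, Sm q t m (X ω) := by
    rw [hcard]
    exact Finset.sum_le_sum fun ω _ => Sm_even hq hme t (X ω)
  have u4 : ∑ ω, Sm q t (m + 1) (X ω) ≤ (((univ.filter fun ω => X ω = t).card : ℕ) : ℝ) := by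
    rw [hcard]
    exact Finset.sum_le_sum fun ω _ => Sm_odd hq hme.add_one t (X ω)
  have u5 : |σ (m + 1) - σ m| ≤ ε / 2 := by
    have : σ (m + 1) - σ m = ac q t (m + 1) * c (t + (m + 1)) := by
      simp only [hσ]
      rw [Finset.sum_range_succ _ (m + 1)]
      ring
    rw [this]
    exact hm
  have u6 := abs_le.1 (hmean m (by omega))
  have u7 := abs_le.1 (hmean (m + 1) le_rfl)
  have u8 := abs_le.1 u5
  have u9 : σ m ≤ p t + ε / 2 := by linarith [u8.1]
  have u10 : p t - ε / 2 ≤ σ (m + 1) := by linarith [u8.1]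
  have u11 := mul_le_mul_of_nonneg_right u9 hn0
  have u12 := mul_le_mul_of_nonneg_right u10 hn0
  rw [abs_le]
  constructor
  · nlinarith [u7.1, u12, u4]
  · nlinarith [u6.2, u11, u3]

end Pool.Agent.Q210.GL
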