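import Pool.Agent.Q269.GL.StL

/-!
# Project GL (helper269), job GL-LMO: the law from the moments

Proof by helper210.
-/

set_option autoImplicit false

open Finset

namespace Pool.Agent.Q210.GL

open Pool.Agent.Q269.GL (S_POW S_BON S_LMO NS ij IsLw)

theorem NS_self (F : Type) [Field F] [Fintype F] (h : ℕ) : NS F h h = 1 := by
  classical
  unfold NS
  rw [Nat.card_eq_one_iff_unique]
  refine ⟨⟨fun a b => ?_⟩, ⟨⟨⊤, ?_⟩⟩⟩
  · have h1 : ∀ T : {T : Submodule F (Fin h → F) // Module.finrank F T = h}, T.1 = ⊤ := by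
      intro T
      apply Submodule.eq_top_of_finrank_eq
      rw [T.2, Module.finrank_fin_fun]
    exact Subtype.ext ((h1 a).trans (h1 b).symm)
  · rw [finrank_top, Module.finrank_fin_fun]

/-- inversion of a triangular system with bounds -/
theorem tri (N : ℕ → ℕ → ℝ) (hN0 : ∀ h s, 0 ≤ N h s) (hN : ∀ h, N h h = 1) (H : ℕ) :
    ∃ K : ℝ, 0 ≤ K ∧ ∀ (E : ℕ → ℝ) (η : ℝ), 0 ≤ η →
      (∀ h ≤ H, |∑ s ∈ range (h + 1), N h s * E s| ≤ η) → ∀ i ≤ H, |E i| ≤ K * η := by
  induction H with
  | zero =>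
    refine ⟨1, zero_le_one, fun E η _ hE i hi => ?_⟩
    obtain rfl : i = 0 := by omega
    have := hE 0 le_rfl
    simpa [hN 0] using this
  | succ H ih =>
    obtain ⟨K, hK0, hK⟩ := ih
    have hS : 0 ≤ ∑ s ∈ range (H + 1), N (H + 1) s := Finset.sum_nonneg fun s _ => hN0 _ _
    refine ⟨K + (1 + (∑ s ∈ range (H + 1), N (H + 1) s) * K), by positivity,
      fun E η hη hE i hi => ?_⟩
    have h1 := hK E η hη fun h hh => hE h (by omega)
    rcases Nat.lt_or_ge i (H + 1) with h2 | h2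
    · refine (h1 i (by omega)).trans ?_
      have : 0 ≤ (1 + (∑ s ∈ range (H + 1), N (H + 1) s) * K) * η := by positivity
      linarith
    · obtain rfl : i = H + 1 := by omega
      have h3 := hE (H + 1) le_rfl
      rw [Finset.sum_range_succ, hN, one_mul] at h3
      have h4 : |∑ s ∈ range (H + 1), N (H + 1) s * E s| ≤
          (∑ s ∈ range (H + 1), N (H + 1) s) * (K * η) := by
        refine (Finset.abs_sum_le_sum_abs _ _).trans ?_
        rw [Finset.sum_mul]
        refine Finset.sum_le_sum fun s hs => ?_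
        rw [Finset.mem_range] at hs
        rw [abs_mul, abs_of_nonneg (hN0 _ _)]
        exact mul_le_mul_of_nonneg_left (h1 s (by omega)) (hN0 _ _)
      have h5 : E (H + 1) = (∑ s ∈ range (H + 1), N (H + 1) s * E s + E (H + 1)) -
          ∑ s ∈ range (H + 1), N (H + 1) s * E s := by ring
      have h6 : |E (H + 1)| ≤ η + (∑ s ∈ range (H + 1), N (H + 1) s) * (K * η) := by
        rw [h5]
        exact (abs_sub _ _).trans (add_le_add h3 h4)
      have h7 : 0 ≤ K * η := by positivity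
      nlinarith [h6, h7]

theorem t_LMO (h1 : S_POW) (h2 : S_BON) : S_LMO := by
  classical
  intro F _ _ p c hp hc t ε hε
  have hq : (1 : ℝ) < Fintype.card F := by exact_mod_cast Fintype.one_lt_card
  obtain ⟨H, δ, hδ, hB⟩ := h2 (Fintype.card F) hq p c hp hc t ε hε
  obtain ⟨K, hK0, hK⟩ := tri (fun h s => (NS F h s : ℝ)) (fun _ _ => Nat.cast_nonneg _)
    (fun h => by rw [NS_self]; exact Nat.cast_one) H
  refine ⟨H, δ / (K + 1), by positivity, fun Ω _ X hX => hB Ω X fun i hi => ?_⟩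
  have hn : (0 : ℝ) ≤ Fintype.card Ω := Nat.cast_nonneg _
  have h3 := hK (fun i => ∑ ω, ij (Fintype.card F) i ((Fintype.card F : ℝ) ^ X ω) -
    c i * Fintype.card Ω) (δ / (K + 1) * Fintype.card Ω) (by positivity) ?_ i hi
  · refine h3.trans ?_
    rw [← mul_assoc]
    refine mul_le_mul_of_nonneg_right ?_ hn
    rw [mul_div_assoc', div_le_iff₀ (by positivity)]
    nlinarith
  · intro h hh
    have h4 := hX h hh
    have e1 : ∑ ω, ((Fintype.card F : ℝ) ^ X ω) ^ h -
        (∑ s ∈ range (h + 1), (NS F h s : ℝ) * c s) * Fintype.card Ω =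
        ∑ s ∈ range (h + 1), (NS F h s : ℝ) *
          (∑ ω, ij (Fintype.card F) s ((Fintype.card F : ℝ) ^ X ω) - c s * Fintype.card Ω) := by
      have e2 : ∑ ω, ((Fintype.card F : ℝ) ^ X ω) ^ h = ∑ ω, ∑ s ∈ range (h + 1), (NS F h s : ℝ) *
          ij (Fintype.card F) s ((Fintype.card F : ℝ) ^ X ω) :=
        Finset.sum_congr rfl fun ω _ => h1 F h (X ω)
      rw [e2, Finset.sum_comm, Finset.sum_mul, ← Finset.sum_sub_distrib]
      refine Finset.sum_congr rfl fun s _ => ?_
      rw [mul_sub, Finset.mul_sum]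
      ring
    rw [e1] at h4
    exact h4

end Pool.Agent.Q210.GL
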