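import Pool.Agent.Q269.GL.StL

/-!
# Project GL (helper269), job GL-NMN: the Durfee type identity

Proof by helper210: `S_t` (the left side) satisfies `S_t - S_(t+1) = x^(t+1) (S_(t+2) - S_(t+1))`, so the
differences vanish, and `S_t` tends to the right side.
-/

set_option autoImplicit false

open Finset Filter Topology

namespace Pool.Agent.Q210.GL

open Pool.Agent.Q269.GL (S_NMN)

/-- the finite product -/
noncomputable def Px (x : ℝ) (m : ℕ) : ℝ := ∏ i ∈ range m, (1 - x ^ (i + 1))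

section
variable {x : ℝ} (h0 : 0 ≤ x) (h1 : x < 1)
include h0 h1

theorem fac_pos (i : ℕ) : 0 < 1 - x ^ (i + 1) := by
  have := pow_lt_one₀ h0 h1 (by omega : i + 1 ≠ 0)
  linarith

theorem Px_pos (m : ℕ) : 0 < Px x m := Finset.prod_pos fun i _ => fac_pos h0 h1 i

omit h0 h1 in
theorem Px_succ (m : ℕ) : Px x (m + 1) = Px x m * (1 - x ^ (m + 1)) := by
  unfold Px
  rw [Finset.prod_range_succ]

theorem Px_anti : Antitone (Px x) := by
  refine antitone_nat_of_succ_le fun m => ?_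
  rw [Px_succ]
  refine mul_le_of_le_one_right (Px_pos h0 h1 m).le ?_
  have : 0 ≤ x ^ (m + 1) := by positivity
  linarith

theorem Px_mult : Multipliable fun i : ℕ => (1 - x ^ (i + 1)) := by
  have hs : Summable fun i : ℕ => -x ^ (i + 1) := by
    refine Summable.neg ?_
    exact (summable_nat_add_iff 1).2 (summable_geometric_of_lt_one h0 h1)
  have := Real.multipliable_one_add_of_summable hs
  simpa [sub_eq_add_neg] using this

theorem Px_tend : Tendsto (Px x) atTop (𝓝 (∏' i : ℕ, (1 - x ^ (i + 1)))) :=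
  (Px_mult h0 h1).hasProd.tendsto_prod_nat

theorem L_le (m : ℕ) : ∏' i : ℕ, (1 - x ^ (i + 1)) ≤ Px x m :=
  (Px_anti h0 h1).le_of_tendsto (Px_tend h0 h1) m

theorem L_pos : 0 < ∏' i : ℕ, (1 - x ^ (i + 1)) := by
  have h2 : 0 ≤ ∏' i : ℕ, (1 - x ^ (i + 1)) :=
    ge_of_tendsto' (Px_tend h0 h1) fun m => (Px_pos h0 h1 m).le
  refine lt_of_le_of_ne h2 (Ne.symm ?_)
  have h3 := tprod_one_add_ne_zero_of_summable (f := fun i : ℕ => -x ^ (i + 1)) (fun i => by
    have := fac_pos h0 h1 i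
    have h4 : 1 + -x ^ (i + 1) = 1 - x ^ (i + 1) := by ring
    rw [h4]
    exact this.ne') (by
    have h4 : (fun i : ℕ => ‖-x ^ (i + 1)‖) = fun i : ℕ => x ^ (i + 1) := by
      funext i
      rw [norm_neg, Real.norm_of_nonneg (by positivity)]
    rw [h4]
    exact (summable_nat_add_iff 1).2 (summable_geometric_of_lt_one h0 h1))
  simpa [sub_eq_add_neg] using h3

/-- the terms -/
noncomputable def aa (x : ℝ) (t m : ℕ) : ℝ := x ^ (m * (m + t)) / (Px x m * Px x (m + t))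

omit h0 h1 in
theorem aa_def (t m : ℕ) : aa x t m = x ^ (m * (m + t)) / (Px x m * Px x (m + t)) := rfl

theorem aa_nonneg (t m : ℕ) : 0 ≤ aa x t m := by
  rw [aa_def]
  have := Px_pos h0 h1 m
  have := Px_pos h0 h1 (m + t)
  positivity

theorem aa_le_gen (t m k : ℕ) (hk : k ≤ m * (m + t)) :
    aa x t m ≤ x ^ k / (∏' i : ℕ, (1 - x ^ (i + 1))) ^ 2 := by
  rw [aa_def]
  have hL := L_pos h0 h1
  have h2 := L_le h0 h1 m
  have h3 := L_le h0 h1 (m + t)
  have h4 : (∏' i : ℕ, (1 - x ^ (i + 1))) ^ 2 ≤ Px x m * Px x (m + t) := by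
    rw [sq]
    exact mul_le_mul h2 h3 hL.le (hL.le.trans h2)
  refine div_le_div₀ (by positivity) ?_ (by positivity) h4
  exact pow_le_pow_of_le_one h0 h1.le hk

theorem aa_le (t m : ℕ) : aa x t m ≤ x ^ m / (∏' i : ℕ, (1 - x ^ (i + 1))) ^ 2 := by
  refine aa_le_gen h0 h1 t m m ?_
  rcases Nat.eq_zero_or_pos m with h | h
  · simp [h]
  · exact Nat.le_mul_of_pos_right m (by omega)

theorem geo_sum : Summable fun m : ℕ => x ^ m / (∏' i : ℕ, (1 - x ^ (i + 1))) ^ 2 :=
  (summable_geometric_of_lt_one h0 h1).div_const _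

theorem aa_sum (t : ℕ) : Summable (aa x t) :=
  Summable.of_nonneg_of_le (aa_nonneg h0 h1 t) (aa_le h0 h1 t) (geo_sum h0 h1)

omit h0 h1 in
/-- the sum -/
noncomputable def St (x : ℝ) (t : ℕ) : ℝ := ∑' m, aa x t m

theorem St_nonneg (t : ℕ) : 0 ≤ St x t := tsum_nonneg (aa_nonneg h0 h1 t)

theorem St_le (t : ℕ) :
    St x t ≤ ∑' m : ℕ, x ^ m / (∏' i : ℕ, (1 - x ^ (i + 1))) ^ 2 :=
  Summable.tsum_le_tsum (aa_le h0 h1 t) (aa_sum h0 h1 t) (geo_sum h0 h1)

/-- the recursion -/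
theorem rec_zero (t : ℕ) : aa x t 0 - aa x (t + 1) 0 = -(x ^ (t + 1) * aa x (t + 1) 0) := by
  have hP := Px_pos h0 h1 t
  have hf := fac_pos h0 h1 t
  have hP0 : Px x 0 = 1 := by simp [Px]
  rw [aa_def, aa_def]
  simp only [Nat.zero_mul, Nat.zero_add, pow_zero, hP0, one_mul]
  rw [Px_succ]
  field_simp
  ring

theorem rec_succ (t k : ℕ) : aa x t (k + 1) - aa x (t + 1) (k + 1) =
    x ^ (t + 1) * aa x (t + 2) k - x ^ (t + 1) * aa x (t + 1) (k + 1) := by
  have hP := Px_pos h0 h1 k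
  have hf := fac_pos h0 h1 k
  have hP2 := Px_pos h0 h1 (k + 1 + t)
  have hf2 := fac_pos h0 h1 (k + 1 + t)
  rw [aa_def, aa_def, aa_def]
  have e1 : k + (t + 2) = (k + 1 + t) + 1 := by omega
  have e2 : k + 1 + (t + 1) = (k + 1 + t) + 1 := by omega
  rw [e1, e2, Px_succ (k + 1 + t), Px_succ k]
  have e3 : x ^ ((k + 1) * (k + 1 + t)) = x ^ (t + 1) * x ^ (k * (k + 1 + t + 1)) := by
    rw [← pow_add]
    congr 1
    ring
  have e4 : x ^ ((k + 1) * (k + 1 + t + 1)) = x ^ (t + 1) * x ^ (k * (k + 1 + t + 1)) *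
      x ^ (k + 1) := by
    rw [← pow_add, ← pow_add]
    congr 1
    ring
  have e5 : x ^ (k + 1 + t + 1) = x ^ (k + 1) * x ^ (t + 1) := by
    rw [← pow_add]
    congr 1
  rw [e4, e3, e5]
  rw [e5] at hf2
  generalize x ^ (k + 1) = u at *
  generalize x ^ (t + 1) = v at *
  generalize x ^ (k * (k + 1 + t + 1)) = w at *
  generalize Px x k = P at *
  generalize Px x (k + 1 + t) = P2 at *
  have n1 : 1 - u ≠ 0 := hf.ne'
  have n2 : 1 - u * v ≠ 0 := hf2.ne'
  have n2' : 1 - v * u ≠ 0 := by rwa [mul_comm]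
  have n3 : P ≠ 0 := hP.ne'
  have n4 : P2 ≠ 0 := hP2.ne'
  field_simp
  ring

theorem D_rec (t : ℕ) : St x t - St x (t + 1) = x ^ (t + 1) * (St x (t + 2) - St x (t + 1)) := by
  have s0 := aa_sum h0 h1 t
  have s1 := aa_sum h0 h1 (t + 1)
  have s2 := aa_sum h0 h1 (t + 2)
  have hd : Summable fun m => aa x t m - aa x (t + 1) m := s0.sub s1
  have e0 : St x t - St x (t + 1) = ∑' m, (aa x t m - aa x (t + 1) m) := by
    unfold St
    rw [s0.tsum_sub s1]
  have s1' : Summable fun m => aa x (t + 1) (m + 1) := (summable_nat_add_iff 1).2 s1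
  rw [e0, hd.tsum_eq_zero_add, rec_zero h0 h1]
  simp only [rec_succ h0 h1]
  rw [(s2.mul_left _).tsum_sub (s1'.mul_left _), tsum_mul_left, tsum_mul_left]
  have e1 : St x (t + 1) = aa x (t + 1) 0 + ∑' m, aa x (t + 1) (m + 1) := s1.tsum_eq_zero_add
  rw [e1]
  unfold St
  ring

theorem St_eq (t : ℕ) : St x t = St x (t + 1) := by
  set B : ℝ := ∑' m : ℕ, x ^ m / (∏' i : ℕ, (1 - x ^ (i + 1))) ^ 2 with hB
  have hb : ∀ s, |St x s - St x (s + 1)| ≤ B := by
    intro s
    have a1 := St_nonneg h0 h1 s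
    have a2 := St_le h0 h1 s
    have a3 := St_nonneg h0 h1 (s + 1)
    have a4 := St_le h0 h1 (s + 1)
    rw [abs_le]
    constructor <;> linarith
  have hr : ∀ s, |St x s - St x (s + 1)| ≤ x * |St x (s + 1) - St x (s + 1 + 1)| := by
    intro s
    rw [D_rec h0 h1 s, abs_mul, abs_of_nonneg (by positivity : 0 ≤ x ^ (s + 1)), abs_sub_comm]
    refine mul_le_mul_of_nonneg_right ?_ (abs_nonneg _)
    have := pow_le_pow_of_le_one h0 h1.le (Nat.le_add_left 1 s)
    rwa [pow_one] at this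
  have hk : ∀ k s, |St x s - St x (s + 1)| ≤ x ^ k * B := by
    intro k
    induction k with
    | zero => intro s; simpa using hb s
    | succ k ih =>
      intro s
      refine (hr s).trans ?_
      rw [pow_succ', mul_assoc]
      exact mul_le_mul_of_nonneg_left (ih (s + 1)) h0
  have hlim : Tendsto (fun k : ℕ => x ^ k * B) atTop (𝓝 0) := by
    have := (tendsto_pow_atTop_nhds_zero_of_lt_one h0 h1).mul_const B
    rwa [zero_mul] at this
  have h2 : |St x t - St x (t + 1)| ≤ 0 := ge_of_tendsto' hlim fun k => hk k t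
  have h3 := abs_nonpos_iff.1 h2
  linarith

theorem St_lim : Tendsto (St x) atTop (𝓝 (∏' i : ℕ, (1 - x ^ (i + 1)))⁻¹) := by
  set L : ℝ := ∏' i : ℕ, (1 - x ^ (i + 1)) with hL
  have hLp : 0 < L := L_pos h0 h1
  have e1 : ∀ u, St x u = (Px x u)⁻¹ + ∑' m, aa x u (m + 1) := by
    intro u
    unfold St
    rw [(aa_sum h0 h1 u).tsum_eq_zero_add]
    congr 1
    rw [aa_def]
    simp [Px]
  have h2 : Tendsto (fun u => (Px x u)⁻¹) atTop (𝓝 L⁻¹) := (Px_tend h0 h1).inv₀ hLp.ne'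
  have s2 : Summable fun m : ℕ => x ^ (m + 1) / L ^ 2 :=
    (summable_nat_add_iff 1).2 (geo_sum h0 h1)
  have h3 : Tendsto (fun u => ∑' m, aa x u (m + 1)) atTop (𝓝 0) := by
    refine squeeze_zero (g := fun u => x ^ u * ∑' m : ℕ, x ^ (m + 1) / L ^ 2)
      (fun u => tsum_nonneg fun m => aa_nonneg h0 h1 u _) (fun u => ?_) ?_
    · rw [← tsum_mul_left]
      refine Summable.tsum_le_tsum (fun m => ?_) ((summable_nat_add_iff 1).2 (aa_sum h0 h1 u))
        (s2.mul_left _)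
      refine (aa_le_gen h0 h1 u (m + 1) (u + (m + 1)) ?_).trans (le_of_eq ?_)
      · nlinarith
      · rw [pow_add]
        ring
    · have := (tendsto_pow_atTop_nhds_zero_of_lt_one h0 h1).mul_const
        (∑' m : ℕ, x ^ (m + 1) / L ^ 2)
      rwa [zero_mul] at this
  have h4 := h2.add h3
  rw [add_zero] at h4
  exact h4.congr fun u => (e1 u).symm

end

theorem t_NMN : S_NMN := by
  intro x h0 h1 t
  have hc : ∀ k, St x (t + k) = St x t := by
    intro k
    induction k with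
    | zero => rfl
    | succ k ih => rw [← Nat.add_assoc, ← St_eq h0 h1, ih]
  have h2 : St x t = (∏' i : ℕ, (1 - x ^ (i + 1)))⁻¹ := by
    have h3 := (St_lim h0 h1).comp (tendsto_add_atTop_nat t)
    refine tendsto_nhds_unique ?_ h3
    refine tendsto_const_nhds.congr fun k => ?_
    simp only [Function.comp_apply]
    rw [Nat.add_comm k t, hc k]
  rw [← h2]
  exact (aa_sum h0 h1 t).hasSum

end Pool.Agent.Q210.GL
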