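import Pool.Agent.Q269.GL.StL

/-!
# Project GL (helper269), job GL-POW: powers and numbers of injective maps

Proof by helper210.
-/

set_option autoImplicit false

open Finset

namespace Pool.Agent.Q210.GL

open Pool.Agent.Q269.GL (S_POW NS ij)

section
variable (F : Type) [Field F] [Fintype F]

theorem li_card (t j : ℕ) :
    (Nat.card {s : Fin t → (Fin j → F) // LinearIndependent F s} : ℝ) =
      ij (Fintype.card F) t ((Fintype.card F : ℝ) ^ j) := by
  unfold ij
  have hfr : Module.finrank F (Fin j → F) = j := by simp
  rcases le_or_gt t j with h | h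
  · have h1 := card_linearIndependent (K := F) (V := Fin j → F) (k := t) (by rw [hfr]; exact h)
    rw [h1, hfr]
    push_cast
    rw [Finset.prod_range fun i => ((Fintype.card F : ℝ) ^ j - (Fintype.card F : ℝ) ^ i)]
    refine Finset.prod_congr rfl fun i _ => ?_
    have h2 : Fintype.card F ^ (i : ℕ) ≤ Fintype.card F ^ j :=
      Nat.pow_le_pow_right Fintype.card_pos (by omega)
    rw [Nat.cast_sub (by convert h2)]
    push_cast
    norm_num
  · have h1 : IsEmpty {s : Fin t → (Fin j → F) // LinearIndependent F s} := by
      refine ⟨fun s => ?_⟩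
      have h2 := s.2.fintype_card_le_finrank
      rw [hfr, Fintype.card_fin] at h2
      omega
    rw [Nat.card_of_isEmpty, Nat.cast_zero]
    exact (Finset.prod_eq_zero (Finset.mem_range.2 h) (sub_self _)).symm

theorem surj_iff {t j : ℕ} (g : (Fin j → F) →ₗ[F] (Fin t → F)) :
    LinearMap.range g = ⊤ ↔ LinearIndependent F (LinearMap.toMatrix' g).row := by
  have h1 : LinearMap.range g = ⊤ ↔ Module.finrank F (LinearMap.range g) = t := by
    constructor
    · intro h
      rw [h, finrank_top]
      simp
    · intro h
      refine Submodule.eq_top_of_finrank_eq ?_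
      rw [h]
      simp
  have h2 : Module.finrank F (LinearMap.range g) = (LinearMap.toMatrix' g).rank := by
    unfold Matrix.rank
    rw [← Matrix.toLin'_apply', Matrix.toLin'_toMatrix']
  rw [h1, h2, Matrix.rank_eq_finrank_span_row, linearIndependent_iff_card_eq_finrank_span,
    Fintype.card_fin]
  exact ⟨fun h => h.symm, fun h => h.symm⟩

/-- the maps onto a subspace -/
noncomputable def eqvT (h j : ℕ) (T : Submodule F (Fin h → F)) :
    {f : (Fin j → F) →ₗ[F] (Fin h → F) // LinearMap.range f = T} ≃
      {g : (Fin j → F) →ₗ[F] (Fin (Module.finrank F T) → F) // LinearMap.range g = ⊤} :=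
  let e : T ≃ₗ[F] (Fin (Module.finrank F T) → F) := LinearEquiv.ofFinrankEq _ _ (by simp)
  { toFun := fun f => ⟨e.toLinearMap ∘ₗ (f.1.codRestrict T fun x => by
        have := LinearMap.mem_range_self f.1 x
        rwa [f.2] at this), by
        rw [LinearMap.range_comp, LinearMap.range_codRestrict, f.2, Submodule.comap_subtype_self,
          Submodule.map_top, LinearEquiv.range]⟩
    invFun := fun g => ⟨T.subtype ∘ₗ e.symm.toLinearMap ∘ₗ g.1, by
        rw [LinearMap.range_comp, LinearMap.range_comp, g.2, Submodule.map_top, LinearEquiv.range,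
          Submodule.map_top, Submodule.range_subtype]⟩
    left_inv := fun f => by
      apply Subtype.ext
      refine LinearMap.ext fun x => ?_
      exact congrArg Subtype.val (e.symm_apply_apply _)
    right_inv := fun g => by
      apply Subtype.ext
      refine LinearMap.ext fun x => ?_
      exact e.apply_symm_apply (g.1 x) }

theorem card_onto (h j : ℕ) (T : Submodule F (Fin h → F)) :
    (Nat.card {f : (Fin j → F) →ₗ[F] (Fin h → F) // LinearMap.range f = T} : ℝ) =
      ij (Fintype.card F) (Module.finrank F T) ((Fintype.card F : ℝ) ^ j) := by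
  rw [← li_card, Nat.card_congr (eqvT F h j T)]
  congr 1
  exact Nat.card_congr (Equiv.subtypeEquiv ((LinearMap.toMatrix' (R := F)
    (m := Fin (Module.finrank F T)) (n := Fin j)).toEquiv.trans Matrix.of.symm) fun g =>
      surj_iff F g)

end

theorem t_POW : S_POW := by
  classical
  intro F _ _ h j
  have hfinL : Finite ((Fin j → F) →ₗ[F] (Fin h → F)) :=
    Finite.of_injective (fun f => (f : (Fin j → F) → (Fin h → F))) DFunLike.coe_injective
  have hfinS : Finite (Submodule F (Fin h → F)) :=
    Finite.of_injective (fun T => (T : Set (Fin h → F))) SetLike.coe_injective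
  let _ : Fintype (Submodule F (Fin h → F)) := Fintype.ofFinite _
  have h1 : (Nat.card ((Fin j → F) →ₗ[F] (Fin h → F)) : ℝ) = ((Fintype.card F : ℝ) ^ j) ^ h := by
    rw [Module.natCard_eq_pow_finrank (K := F), Module.finrank_linearMap]
    simp [pow_mul]
  have h2 : (Nat.card ((Fin j → F) →ₗ[F] (Fin h → F)) : ℝ) =
      ∑ T : Submodule F (Fin h → F),
        ij (Fintype.card F) (Module.finrank F T) ((Fintype.card F : ℝ) ^ j) := by
    rw [← Nat.card_congr (Equiv.sigmaFiberEquiv
      (fun f : (Fin j → F) →ₗ[F] (Fin h → F) => LinearMap.range f)), Nat.card_sigma]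
    push_cast
    exact Finset.sum_congr rfl fun T _ => card_onto F h j T
  rw [← h1, h2, ← Finset.sum_fiberwise_of_maps_to (s := (univ : Finset (Submodule F (Fin h → F))))
    (t := range (h + 1)) (g := fun T : Submodule F (Fin h → F) => Module.finrank F T)]
  · refine Finset.sum_congr rfl fun t _ => ?_
    have h3 : ∀ T ∈ (univ : Finset (Submodule F (Fin h → F))).filter
        (fun T : Submodule F (Fin h → F) => Module.finrank F T = t),
        ij (Fintype.card F) (Module.finrank F T) ((Fintype.card F : ℝ) ^ j) =
        ij (Fintype.card F) t ((Fintype.card F : ℝ) ^ j) := by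
      intro T hT
      rw [(Finset.mem_filter.1 hT).2]
    rw [Finset.sum_congr rfl h3, Finset.sum_const, nsmul_eq_mul]
    congr 2
    unfold NS
    rw [Nat.card_eq_fintype_card, Fintype.card_subtype]
  · intro T _
    rw [Finset.mem_range]
    have := Submodule.finrank_le T
    have h4 : Module.finrank F (Fin h → F) = h := by simp
    omega

end Pool.Agent.Q210.GL
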